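import Pool.Agent.W440.DLHill

set_option autoImplicit false

/-!
# Direct limits of deconstructible classes closed under (small) filtrations

Let `C` be a `κ`-deconstructible class of `R`-modules and `lam` an infinite cardinal with
`|R| ≤ lam` and `κ ≤ lam⁺`, such that every module of cardinality at most `lam` which has a
filtration by `<κ`-presented modules of `C` belongs to `C` (for example: `C` is closed under
filtrations, in particular `C = Filt(S)` for a set `S` of modules). Then the class of all direct
limits of modules from `C` is `(2 ^ lam)⁺`-deconstructible.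
-/

namespace Pool.Agent.Results.MP_579b8c_al.FiltrationClosed

open Cardinal Pool.Agent.W440.DL

universe u

theorem result (R : Type u) [Ring R] (C : Cls R) (hC : IsoClosed C) (κ lam : Cardinal.{u})
    (hlam : ℵ₀ ≤ lam) (hR : #R ≤ lam) (hκ : κ ≤ Order.succ lam) (hdec : KDeconstructible κ C)
    (hfilt : ∀ M : ModuleCat.{u} R, #M ≤ lam →
      HasFiltration (fun N => C N ∧ LtPresented κ N) M → C M) :
    (Order.succ ((2 : Cardinal.{u}) ^ lam)).IsRegular ∧
      KDeconstructible (Order.succ ((2 : Cardinal.{u}) ^ lam)) (DirLim C) := by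
  have hA : IsoClosed (fun N : ModuleCat.{u} R => C N ∧ LtPresented κ N) := by
    rintro M N ⟨e⟩ ⟨h1, X, s, hX, hs, ⟨e'⟩⟩
    exact ⟨hC M N ⟨e⟩ h1, X, s, hX, hs, ⟨e'.trans e⟩⟩
  refine kDec_of_locSmall hlam (fun M hM Z hZ => ?_) le_rfl hR
  obtain ⟨H, h1, h2, h3⟩ := hill hA hlam hR (fun N hN => card_of_ltPresented hlam hR hκ hN.2)
    (filt_of_hasFiltration (hdec M hM)) Z hZ
  exact ⟨H, h1, hfilt _ h3 (hasFiltration_of_filt (M := ModuleCat.of R H) h2), h3⟩

/-- The case of classes closed under filtrations, without cardinals. -/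
theorem closed_under_filtrations (R : Type u) [Ring R] (C : Cls R) (hC : IsoClosed C)
    (hdec : Deconstructible C) (hfilt : ∀ M : ModuleCat.{u} R, HasFiltration C M → C M) :
    Deconstructible (DirLim C) := by
  obtain ⟨κ, hκ, h⟩ := hdec
  let lam : Cardinal.{u} := max κ #R
  have h1 : ℵ₀ ≤ lam := hκ.aleph0_le.trans (le_max_left _ _)
  have h2 := result R C hC κ lam h1 (le_max_right _ _)
    ((le_max_left _ _).trans (Order.le_succ _)) h (fun M _ hM => by
      apply hfilt
      exact hasFiltration_of_filt (filt_mono (fun _ h => h.1) (filt_of_hasFiltration hM)))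
  exact ⟨_, h2⟩

end Pool.Agent.Results.MP_579b8c_al.FiltrationClosed
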