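import Pool.Agent.W440.DLSmall

set_option autoImplicit false

/-!
# Direct limits of locally small classes of modules

Let `ν` be an infinite cardinal and `C` a class of `R`-modules such that every subset of cardinality
at most `ν` of a module `M` in `C` lies in a submodule `H` of `M` of cardinality at most `ν` which
belongs to `C` (for example, any class of modules of cardinality at most `ν`). Then the class of all
direct limits of modules from `C` is `(2 ^ lam)⁺`-deconstructible for every `lam ≥ ν, |R|`.
-/

namespace Pool.Agent.Results.MP_579b8c_al.LocallySmall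

open Cardinal Pool.Agent.W440.DL

universe u

theorem result (R : Type u) [Ring R] (C : Cls R) (ν lam : Cardinal.{u}) (hν : ℵ₀ ≤ ν)
    (hlam : ν ≤ lam) (hR : #R ≤ lam)
    (hC : ∀ M : ModuleCat.{u} R, C M → ∀ Z : Set M, #Z ≤ ν →
      ∃ H : Submodule R M, Z ⊆ H ∧ C (ModuleCat.of R H) ∧ #H ≤ ν) :
    (Order.succ ((2 : Cardinal.{u}) ^ lam)).IsRegular ∧
      KDeconstructible (Order.succ ((2 : Cardinal.{u}) ^ lam)) (DirLim C) :=
  kDec_of_locSmall hν hC hlam hR

/-- The case of a class of modules of bounded cardinality (a set of modules up to isomorphism). -/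
theorem bounded (R : Type u) [Ring R] (C : Cls R) (hC : IsoClosed C) (ν : Cardinal.{u})
    (hν : ∀ M, C M → #M ≤ ν) : Deconstructible (DirLim C) := by
  have h := result R C (max ν ℵ₀) (max (max ν ℵ₀) #R) (le_max_right _ _) (le_max_left _ _)
    (le_max_right _ _) (fun M hM Z _ => ⟨⊤, fun _ _ => trivial,
      hC M _ ⟨Submodule.topEquiv.symm⟩ hM, by
        refine (Cardinal.mk_le_of_injective Subtype.val_injective).trans ?_
        exact (hν M hM).trans (le_max_left _ _)⟩)
  exact ⟨_, h⟩

end Pool.Agent.Results.MP_579b8c_al.LocallySmall
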