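import Pool.Agent.W631.VP.Neg
import Pool.Agent.W631.VP.Pos
import Pool.Agent.W631.VP.Meas

set_option autoImplicit false

/-!
# Deconstructibility of direct limit closures is equivalent to Vopěnka's principle

The modules and rings live in `Type u`, whose types play the role of the sets; classes of modules
are arbitrary predicates on modules in `Type u`.

1. Vopěnka's principle holds if and only if for every ring `R` and every deconstructible class `C`
   of `R`-modules the class of all direct limits of modules of `C` is deconstructible.
2. Under Vopěnka's principle the class of direct limits of modules of `C` is deconstructible for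
   every class `C` of modules, deconstructible or not.
3. If there are no measurable cardinals, i.e. if every countably complete ultrafilter on a set is
   principal, then there are a ring `R` and a deconstructible class `C` of `R`-modules such that the
   class of direct limits of modules of `C` is not deconstructible.
-/

namespace Pool.Agent.Results.MP_579b8c_al.Vopenka

open Pool.Agent.W440.DL Pool.Agent.W631.VP

universe u

theorem result :
    (VopenkaPrinciple.{u} ↔ ∀ (R : Type u) [Ring R] (C : Cls R), IsoClosed C →
      Deconstructible C → Deconstructible (DirLim C)) ∧
    (VopenkaPrinciple.{u} → ∀ (R : Type u) [Ring R] (C : Cls R), IsoClosed C →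
      Deconstructible (DirLim C)) ∧
    ((∀ (S : Type u) (U : Ultrafilter S), CountableInterFilter (U : Filter S) →
        ∃ x, U = pure x) →
      ∃ (R : Type u) (_ : Ring R) (C : Cls R), IsoClosed C ∧ Deconstructible C ∧
        ¬ Deconstructible (DirLim C)) := by
  have key : ¬ VopenkaPrinciple.{u} → ∃ (R : Type u) (_ : Ring R) (C : Cls R), IsoClosed C ∧
      Deconstructible C ∧ ¬ Deconstructible (DirLim C) := by
    intro h
    unfold VopenkaPrinciple at h
    push Not at h
    obtain ⟨L, A, iA, hA⟩ := h
    exact ⟨_, inferInstance, Cl L A, Cl_iso, Cl_dec,
      not_dec (fun α β hne => hA α β hne)⟩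
  refine ⟨⟨fun hVP R _ C hC _ => deconstructible_dirLim hVP hC, fun h => ?_⟩,
    fun hVP R _ C hC => deconstructible_dirLim hVP hC, fun h => ?_⟩
  · by_contra hcon
    obtain ⟨R, i, C, h1, h2, h3⟩ := key hcon
    exact h3 (h R C h1 h2)
  · apply key
    intro hVP
    obtain ⟨S, U, h1, h2⟩ := measurable_of_vopenka hVP
    obtain ⟨x, hx⟩ := h S U h1
    apply h2 x
    rw [hx]
    exact Filter.mem_pure.2 rfl

end Pool.Agent.Results.MP_579b8c_al.Vopenka
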